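import Pool.Agent.Y803.BG.Noether

/-!
# The sections of the stable bundle of type `(2 g - 2, 4 g - 3)`
-/

open scoped WithZero Matrix IntermediateField
open WithZero

set_option linter.unusedSectionVars false
set_option linter.unusedVariables false

namespace Pool.Agent.Y803.BG

open Pool.Agent.W525.BA

open Pool.Agent.Helper395.CS hiding genus
open Pool.Agent.Helper395.BC hiding SubM Dat p1 p2 p1_apply p2_apply p1_append p2_append append_p
  p_ext reg_iff i1 i2 p1_i1 p2_i1 p1_i2 p2_i2 eqM eqM_eq_zero exists_stable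

variable {K : Type} [Field K] [Algebra ℂ K] {n m q k r : ℕ}

/-- inclusion of the last `r` coordinates -/
def i2 : (Fin r → K) →ₗ[K] (Fin (r + r) → K) where
  toFun s := Fin.append 0 s
  map_add' s t := by
    apply p_ext
    · rw [map_add, p1_append, p1_append, p1_append, add_zero]
    · rw [map_add, p2_append, p2_append, p2_append]
  map_smul' c s := by
    apply p_ext
    · rw [map_smul, p1_append, p1_append, smul_zero]
    · rw [map_smul, p2_append, p2_append]; rfl

theorem p1_i2 (s : Fin r → K) : p1 (i2 s) = 0 := p1_append _ _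
theorem p2_i2 (s : Fin r → K) : p2 (i2 s) = s := p2_append _ _

theorem section_eq {hK : IsCurve K} {hg : genus K ≠ 0} {L1 : LineBundle K}
    {a b α : Fin (genus K) → K} {u : Point K → K} (hs : SmallH0 K) (hg3 : 3 ≤ genus K)
    (D : Dat hK hg L1 a b α u) {M : Bundle K (2 * genus K - 2)}
    {j : (Fin (2 * genus K - 2) → K) →ₗ[K] (Fin (genus K + genus K) → K)} (hM : SubM a b α M j)
    (hker : ∀ s, eqM a b α s = 0 → s ∈ LinearMap.range j)
    (θ : (Fin (2 * genus K - 2) → K) →ₗ[K] K)
    (hθ : ∀ (v : Point K) x, x ∈ M.stalk v → v.val (θ x) ≤ 1) :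
    ∃ C1 C2 : Fin (genus K) → ℂ, ∀ x,
      θ x = ∑ i, C1 i • p1 (j x) i + ∑ i, C2 i • p2 (j x) i := by
  obtain ⟨ρ, hρ⟩ := j.exists_leftInverse_of_injective (LinearMap.ker_eq_bot.2 hM.inj)
  have hρ' : ∀ x, ρ (j x) = x := fun x => LinearMap.congr_fun hρ x
  obtain ⟨v0⟩ := point_nonempty hK
  obtain ⟨i0, -⟩ := D.ga.gen v0
  have ha0 := D.ga.ne_zero i0
  -- first step
  obtain ⟨C1, hC1⟩ := hom_const_one hK hg hs hg3 D.d1 D.ga (θ ∘ₗ ρ ∘ₗ i1) (by
    intro v s hsr has
    obtain ⟨x, hx⟩ := hker (i1 s) (by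
      rw [eqM_eq_zero, p1_i1, p2_i1]
      refine ⟨?_, by simp⟩
      rw [has]; simp)
    change v.val (θ (ρ (i1 s))) ≤ 1
    rw [← hx, hρ']
    apply hθ
    rw [hM.stalk, reg_iff, hx, p1_i1, p2_i1]
    exact ⟨hsr, fun i => by simp⟩)
  let θ' : (Fin (2 * genus K - 2) → K) →ₗ[K] K :=
    { toFun := fun x => θ x - ∑ i, C1 i • p1 (j x) i
      map_add' := fun x y => by
        simp only [map_add, Pi.add_apply, smul_add, Finset.sum_add_distrib]
        ring
      map_smul' := fun c x => by
        simp only [map_smul, Pi.smul_apply, smul_eq_mul, RingHom.id_apply, mul_sub, Finset.mul_sum]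
        congr 1
        refine Finset.sum_congr rfl fun i _ => ?_
        rw [mul_smul_comm] }
  have hθ'1 : ∀ x, p2 (j x) = 0 → θ' x = 0 := by
    intro x hx
    change θ x - ∑ i, C1 i • p1 (j x) i = 0
    have h1 : i1 (p1 (j x)) = j x := p_ext (p1_i1 _) (by rw [p2_i1, hx])
    have h2 := hC1 (p1 (j x)) (by
      have := hM.rel1 x
      rw [hx] at this
      simpa using this)
    change θ (ρ (i1 (p1 (j x)))) = _ at h2
    rw [h1, hρ'] at h2
    rw [h2, sub_self]
  have hθ'2 : ∀ x y, p2 (j x) = p2 (j y) → θ' x = θ' y := by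
    intro x y hxy
    have := hθ'1 (x - y) (by rw [map_sub, map_sub, hxy, sub_self])
    rw [map_sub, sub_eq_zero] at this
    exact this
  -- second step
  let σ : (Fin (genus K) → K) →ₗ[K] (Fin (genus K + genus K) → K) :=
    { toFun := fun t => i1 (Pi.single i0 (-(∑ i, α i * t i) / a i0)) + i2 t
      map_add' := fun s t => by
        have : (-(∑ i, α i * (s + t) i) / a i0) =
            (-(∑ i, α i * s i) / a i0) + (-(∑ i, α i * t i) / a i0) := by
          simp only [Pi.add_apply, mul_add, Finset.sum_add_distrib]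
          ring
        rw [this, Pi.single_add, map_add, map_add]
        abel
      map_smul' := fun c t => by
        have : (-(∑ i, α i * (c • t) i) / a i0) = c • (-(∑ i, α i * t i) / a i0) := by
          have h1 : ∑ i, α i * (c • t) i = c * ∑ i, α i * t i := by
            rw [Finset.mul_sum]
            exact Finset.sum_congr rfl fun i _ => by
              rw [Pi.smul_apply, smul_eq_mul]; ring
          rw [h1, smul_eq_mul]
          ring
        rw [this, Pi.single_smul, map_smul, map_smul, RingHom.id_apply, smul_add] }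
  have hσ2 : ∀ t, p2 (σ t) = t := by
    intro t
    change p2 (i1 _ + i2 t) = t
    rw [map_add, p2_i1, p2_i2, zero_add]
  have hσr : ∀ t, ∑ i, b i * t i = 0 → ∃ x, j x = σ t := by
    intro t ht
    apply hker
    rw [eqM_eq_zero, hσ2]
    refine ⟨?_, ht⟩
    have h1 : p1 (σ t) = Pi.single i0 (-(∑ i, α i * t i) / a i0) := by
      change p1 (i1 _ + i2 t) = _
      rw [map_add, p1_i1, p1_i2, add_zero]
    rw [h1, Finset.sum_eq_single i0]
    · rw [Pi.single_eq_same, mul_div_cancel₀ _ ha0]
      exact neg_add_cancel _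
    · intro i _ hi
      rw [Pi.single_eq_of_ne hi, mul_zero]
    · simp
  obtain ⟨C2, hC2⟩ := hom_const_can hK hg hs (by omega) D.gb (θ' ∘ₗ ρ ∘ₗ σ) (by
    intro v t ht hbt
    obtain ⟨s, hs', hst⟩ := D.lift v ht hbt
    obtain ⟨x, hx⟩ := hker (Fin.append s t) (by
      rw [eqM_eq_zero, p1_append, p2_append]
      exact ⟨hst, hbt⟩)
    obtain ⟨y, hy⟩ := hσr t hbt
    change v.val (θ' (ρ (σ t))) ≤ 1
    rw [← hy, hρ', hθ'2 y x (by rw [hy, hx, hσ2, p2_append])]
    have hxM : x ∈ M.stalk v := by
      rw [hM.stalk, reg_iff, hx, p1_append, p2_append]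
      exact ⟨hs', ht⟩
    refine Valuation.map_sub_le _ (hθ v x hxM) (Valuation.map_sum_le _ fun i _ => ?_)
    rw [Algebra.smul_def, map_mul, hx, p1_append]
    exact mul_le_one' (v.const_le _) (hs' i))
  refine ⟨C1, C2, fun x => ?_⟩
  obtain ⟨y, hy⟩ := hσr (p2 (j x)) (hM.rel2 x)
  have h1 := hC2 (p2 (j x)) (hM.rel2 x)
  change θ' (ρ (σ (p2 (j x)))) = _ at h1
  rw [← hy, hρ', hθ'2 y x (by rw [hy, hσ2])] at h1
  rw [← h1]
  change θ x = _ + (θ x - _)
  ring

/-- the coordinate functionals span the sections of the dual bundle -/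
theorem sections_eq {hK : IsCurve K} {hg : genus K ≠ 0} {L1 : LineBundle K}
    {a b α : Fin (genus K) → K} {u : Point K → K} (hs : SmallH0 K) (hg3 : 3 ≤ genus K)
    (D : Dat hK hg L1 a b α u) {M : Bundle K (2 * genus K - 2)}
    {j : (Fin (2 * genus K - 2) → K) →ₗ[K] (Fin (genus K + genus K) → K)} (hM : SubM a b α M j)
    (hker : ∀ s, eqM a b α s = 0 → s ∈ LinearMap.range j) :
    (bdual M).sections ≤ LinearMap.range (rowMap j) := by
  intro f hf
  let θ : (Fin (2 * genus K - 2) → K) →ₗ[K] K :=
    { toFun := fun x => ∑ l, f l * x l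
      map_add' := fun x y => by
        rw [← Finset.sum_add_distrib]
        exact Finset.sum_congr rfl fun i _ => mul_add _ _ _
      map_smul' := fun c x => by
        rw [RingHom.id_apply, smul_eq_mul, Finset.mul_sum]
        exact Finset.sum_congr rfl fun i _ => by
          rw [Pi.smul_apply, smul_eq_mul]; ring }
  obtain ⟨C1, C2, hC⟩ := section_eq hs hg3 D hM hker θ (fun v x hx =>
    (mem_bdual M v f).1 (hf v) x hx)
  refine ⟨Fin.append C1 C2, ?_⟩
  funext l
  have h1 := rowMap_dot j (Fin.append C1 C2) (Pi.single l 1)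
  have h2 := hC (Pi.single l 1)
  rw [Pool.Agent.W525.BA.sum_mul_single, mul_one, Fin.sum_univ_add] at h1
  change ∑ p, f p * (Pi.single l 1 : Fin (2 * genus K - 2) → K) p = _ at h2
  rw [Pool.Agent.W525.BA.sum_mul_single, mul_one] at h2
  rw [h1, h2]
  simp only [Fin.append_left, Fin.append_right]
  rfl

/-- existence of a stable generated bundle with exactly `2 g` sections -/
theorem exists_stable (hK : IsCurve K) (hg3 : 3 ≤ genus K) (hne : HasNoPencilOfDegreeTwo K) :
    ∃ E : Bundle K (2 * genus K - 2), E.degree = 4 * genus K - 3 ∧ IsStable E ∧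
      Module.finrank ℂ E.sections = 2 * genus K ∧ IsGeneratedBy E E.sections := by
  have hg : genus K ≠ 0 := by omega
  have hs := smallH0 hK hg hne
  obtain ⟨L1, a, b, α, u, D⟩ := exists_data' hK hg hg3 hne
  obtain ⟨M, j, hM, hker, hd⟩ := D.exists_M (by omega)
  have hj : IsSubbundle M (trivialBundle K (genus K + genus K)) j :=
    ⟨hM.inj, fun v x => by rw [hM.stalk, mem_trivial]⟩
  have hV' : LinearMap.range (rowMap j) ≤ (bdual M).sections := by
    rintro _ ⟨c, rfl⟩
    rw [rowMap_apply]
    exact Submodule.sum_mem _ fun i _ => Submodule.smul_mem _ _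
      (rowJ_mem (fun v x hx => (hM.stalk v x).1 hx) i)
  have hinj : Function.Injective (rowMap j) := by
    rw [← LinearMap.ker_eq_bot, LinearMap.ker_eq_bot']
    intro c hc
    obtain ⟨h1, h2⟩ := D.indep (by omega) hker (C1 := fun i => c (Fin.castAdd (genus K) i))
      (C2 := fun i => c (Fin.natAdd (genus K) i)) (M := M) (fun x => by
        have h3 := rowMap_dot j c x
        rw [hc, Fin.sum_univ_add] at h3
        simp only [Pi.zero_apply, zero_mul, Finset.sum_const_zero] at h3
        exact h3.symm)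
    funext i
    refine Fin.addCases (fun i => ?_) (fun i => ?_) i
    · exact congrFun h1 i
    · exact congrFun h2 i
  have heq : (bdual M).sections = LinearMap.range (rowMap j) :=
    le_antisymm (sections_eq hs hg3 D hM hker) hV'
  refine ⟨bdual M, ?_, D.stable hs (by omega) hM hd, ?_, ?_⟩
  · rw [bdual_degree, hd, neg_neg]
  · rw [heq, LinearMap.finrank_range_of_inj hinj]
    simp
    omega
  · have h1 : IsGeneratedBy (bdual M) (LinearMap.range (rowMap j)) :=
      dual_generated_by hj (fun i => ⟨_, rowMap_single j i⟩) hV'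
    rwa [← heq] at h1

end Pool.Agent.Y803.BG
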