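import Pool.Agent.W525.Final

/-!
# Noether's theorem for line bundles of degree `2 g - 1`, and the sections of the dual bundle
-/

open scoped WithZero Matrix IntermediateField
open WithZero

set_option linter.unusedSectionVars false
set_option linter.unusedVariables false

namespace Pool.Agent.Y803.BG

open Pool.Agent.W525.BA

open Pool.Agent.Helper395.CS hiding genus
open Pool.Agent.Helper395.BC hiding SubM Dat p1 p2 p1_apply p2_apply p1_append p2_append append_p
  p_ext reg_iff i1 i2 p1_i1 p2_i1 p1_i2 p2_i2 eqM eqM_eq_zero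

variable {K : Type} [Field K] [Algebra ℂ K] {n m q k r : ℕ}

/-- a globally generated line bundle `L` of degree `2 g - 1` is not `Ω` with an effective twist -/
theorem not_effective (hK : IsCurve K) (hg : genus K ≠ 0) {L : LineBundle K}
    (hd : L.degree = 2 * genus K - 1) {c : Fin (genus K) → K} (h : GG L c) {y : K}
    (hy : y ∈ H0 (lmul L (linv (can hK hg)))) : y = 0 := by
  classical
  by_contra hy0
  set κ := can hK hg with hκ
  -- a zero of `y`
  obtain ⟨w, hw⟩ : ∃ w : Point K, w.val (y * (κ.frame w : K)) < w.val (L.frame w : K) := by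
    by_contra hcon
    push Not at hcon
    have h1 : (lmul L (linv κ)).degree ≤ (lprin hK (Units.mk0 y hy0)).degree := by
      refine ldegree_le hK fun v s hsv => ?_
      rw [mem_lmul_linv] at hsv
      change v.val (s * (κ.frame v : K)) ≤ v.val (L.frame v : K) at hsv
      change v.val s ≤ v.val y
      have h2 := hsv.trans (hcon v)
      rw [map_mul, map_mul] at h2
      exact le_of_mul_le_mul_right h2 (frame_pos κ v)
    rw [lprin_degree, lmul_degree, linv_degree, hd, hκ, can_degree] at h1
    omega
  -- multiplication by `y`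
  have hmul : ∀ f ∈ H0 κ, y * f ∈ H0 L := by
    intro f hf v
    have h1 := (mem_lmul_linv L κ v y).1 (hy v)
    change v.val (y * (κ.frame v : K)) ≤ v.val (L.frame v : K) at h1
    change v.val (y * f) ≤ v.val (L.frame v : K)
    refine le_trans ?_ h1
    rw [map_mul, map_mul]
    exact mul_le_mul_right (hf v) _
  have f1 := H0_finite hK hg L
  have f2 := H0_finite hK hg κ
  let F : H0 κ →ₗ[ℂ] H0 L := ((LinearMap.mulLeft ℂ y) ∘ₗ (H0 κ).subtype).codRestrict _
    (fun x => hmul x.1 x.2)
  have hFv : ∀ x, ((F x : H0 L) : K) = y * x := fun x => rfl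
  have hF : Function.Injective F := by
    intro x x' hx
    have h1 : y * (x : K) = y * x' := congrArg Subtype.val hx
    exact Subtype.ext (mul_left_cancel₀ hy0 h1)
  have hκ3 : Module.finrank ℂ (H0 κ) = genus K := by rw [hκ, can_h0]
  have hL3 : Module.finrank ℂ (H0 L) ≤ genus K := by
    have h1 : (⊤ : Submodule ℂ (H0 L)) = Submodule.span ℂ (Set.range fun i => (⟨c i, h.mem i⟩ : H0 L)) := by
      symm
      rw [eq_top_iff]
      rintro ⟨x, hx⟩ -
      obtain ⟨a, ha⟩ := h.span x hx
      have h2 : (⟨x, hx⟩ : H0 L) = ∑ i, a i • (⟨c i, h.mem i⟩ : H0 L) := by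
        apply Subtype.ext
        rw [AddSubmonoidClass.coe_finsetSum]
        exact ha
      rw [h2]
      exact Submodule.sum_mem _ fun i _ => Submodule.smul_mem _ _ (Submodule.subset_span ⟨i, rfl⟩)
    rw [← finrank_top ℂ (H0 L), h1]
    refine (finrank_range_le_card _).trans ?_
    simp
  have hsurj : Function.Surjective F := by
    rw [← LinearMap.range_eq_top]
    apply Submodule.eq_top_of_finrank_eq
    have h1 := LinearMap.finrank_range_of_inj hF
    have h2 := Submodule.finrank_le (LinearMap.range F)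
    omega
  obtain ⟨i, hi⟩ := h.gen w
  obtain ⟨x, hx⟩ := hsurj ⟨c i, h.mem i⟩
  have h1 : y * (x : K) = c i := congrArg Subtype.val hx
  have h2 : w.val (c i) ≤ w.val (y * (κ.frame w : K)) := by
    rw [← h1, map_mul, map_mul]
    exact mul_le_mul_right (x.2 w) _
  rw [hi] at h2
  exact absurd hw (not_lt.2 h2)

/-- regular functionals on the kernel bundle of a globally generated line bundle of degree `2 g - 1` are
constant (an analogue of Max Noether's theorem) -/
theorem hom_const_one (hK : IsCurve K) (hg : genus K ≠ 0) (hs : SmallH0 K) (hg3 : 3 ≤ genus K)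
    {L : LineBundle K} (hd : L.degree = 2 * genus K - 1) {c : Fin (genus K) → K} (h : GG L c) (θ : (Fin (genus K) → K) →ₗ[K] K)
    (hθ : ∀ (v : Point K) (t : Fin (genus K) → K), v.Reg t → ∑ i, c i * t i = 0 → v.val (θ t) ≤ 1) :
    ∃ C : Fin (genus K) → ℂ, ∀ t : Fin (genus K) → K, ∑ i, c i * t i = 0 →
      θ t = ∑ i, C i • t i := by
  classical
  set a : Fin (genus K) → K := fun l => θ (Pi.single l 1) with ha
  have hθa : ∀ t, θ t = ∑ l, a l * t l := by
    intro t
    conv_lhs => rw [← Finset.univ_sum_single t, map_sum]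
    refine Finset.sum_congr rfl fun l _ => ?_
    have : (Pi.single l (t l) : Fin (genus K) → K) = t l • Pi.single l 1 := by
      rw [← Pi.single_smul, smul_eq_mul, mul_one]
    rw [this, map_smul, smul_eq_mul, mul_comm]
  choose i0 hi0 using h.gen
  set τ : Point K → K := fun v => a (i0 v) / c (i0 v) with hτ
  have hreg : ∀ (v : Point K) l, v.val (a l - τ v * c l) ≤ 1 := by
    intro v l
    have hc0 := h.ne_zero (i0 v)
    have hq : v.val (c l / c (i0 v)) ≤ 1 := by
      rw [map_div₀, hi0, div_le_one₀ (frame_pos L v)]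
      exact h.mem l v
    have h1 := hθ v (Pi.single l 1 - Pi.single (i0 v) (c l / c (i0 v))) (by
      intro i
      rw [Pi.sub_apply]
      refine Valuation.map_sub_le _ ?_ ?_
      · rcases eq_or_ne i l with rfl | hi
        · rw [Pi.single_eq_same, map_one]
        · rw [Pi.single_eq_of_ne hi]; simp
      · rcases eq_or_ne i (i0 v) with rfl | hi
        · rw [Pi.single_eq_same]; exact hq
        · rw [Pi.single_eq_of_ne hi]; simp) (by
      simp only [Pi.sub_apply, mul_sub, Finset.sum_sub_distrib]
      rw [Finset.sum_eq_single l, Finset.sum_eq_single (i0 v)]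
      · rw [Pi.single_eq_same, Pi.single_eq_same]
        field_simp
        ring
      · intro i _ hi
        rw [Pi.single_eq_of_ne hi, mul_zero]
      · simp
      · intro i _ hi
        rw [Pi.single_eq_of_ne hi, mul_zero]
      · simp)
    have h2 : θ (Pi.single l 1 - Pi.single (i0 v) (c l / c (i0 v))) = a l - τ v * c l := by
      have : (Pi.single (i0 v) (c l / c (i0 v)) : Fin (genus K) → K) =
          (c l / c (i0 v)) • Pi.single (i0 v) 1 := by
        rw [← Pi.single_smul, smul_eq_mul, mul_one]
      rw [map_sub, this, map_smul, smul_eq_mul, hτ]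
      change a l - c l / c (i0 v) * a (i0 v) = a l - a (i0 v) / c (i0 v) * c l
      ring
    rwa [h2] at h1
  by_contra hcon
  -- `a` is not constant modulo multiples of `c`
  have hnc : ∀ f : K, ∃ l, ∀ z : ℂ, a l - f * c l ≠ algebraMap ℂ K z := by
    intro f
    by_contra hf
    push Not at hf
    choose C hC using hf
    apply hcon
    refine ⟨C, fun t ht => ?_⟩
    have h1 : ∑ l, (a l - f * c l) * t l = ∑ l, a l * t l - f * ∑ l, c l * t l := by
      rw [Finset.mul_sum, ← Finset.sum_sub_distrib]
      exact Finset.sum_congr rfl fun l _ => by ring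
    rw [ht, mul_zero, sub_zero] at h1
    rw [hθa, ← h1]
    exact Finset.sum_congr rfl fun l _ => by rw [hC, Algebra.smul_def]
  obtain ⟨v⟩ := point_nonempty hK
  -- the linear forms
  let φ1 : ℂ × (Fin (genus K) → ℂ) →ₗ[ℂ] K :=
    { toFun := fun x => ∑ l, x.2 l • c l
      map_add' := fun x y => by
        rw [← Finset.sum_add_distrib]
        exact Finset.sum_congr rfl fun l _ => by rw [Prod.snd_add, Pi.add_apply, add_smul]
      map_smul' := fun z x => by
        rw [RingHom.id_apply, Finset.smul_sum]
        exact Finset.sum_congr rfl fun l _ => by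
          rw [Prod.smul_snd, Pi.smul_apply, smul_eq_mul, mul_smul] }
  have hφ1 : ∀ x, φ1 x = ∑ l, x.2 l • c l := fun x => rfl
  let φ2 : (f : K) → ℂ × (Fin (genus K) → ℂ) →ₗ[ℂ] K := fun f =>
    { toFun := fun x => x.1 • (1 : K) + ∑ l, x.2 l • (a l - f * c l)
      map_add' := fun x y => by
        rw [Prod.fst_add, add_smul]
        have : ∑ l, (x + y).2 l • (a l - f * c l) = ∑ l, x.2 l • (a l - f * c l) +
            ∑ l, y.2 l • (a l - f * c l) := by
          rw [← Finset.sum_add_distrib]
          exact Finset.sum_congr rfl fun l _ => by rw [Prod.snd_add, Pi.add_apply, add_smul]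
        rw [this]
        abel
      map_smul' := fun z x => by
        rw [RingHom.id_apply, smul_add, Finset.smul_sum, Prod.smul_fst, smul_eq_mul, mul_smul]
        congr 1
        exact Finset.sum_congr rfl fun l _ => by
          rw [Prod.smul_snd, Pi.smul_apply, smul_eq_mul, mul_smul] }
  have hφ2 : ∀ f x, φ2 f x = x.1 • (1 : K) + ∑ l, x.2 l • (a l - f * c l) := fun f x => rfl
  have hφ12 : ∀ f f' x, φ2 f x = φ2 f' x + (f' - f) * φ1 x := by
    intro f f' x
    rw [hφ2, hφ2, hφ1, add_assoc, Finset.mul_sum, ← Finset.sum_add_distrib]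
    congr 1
    refine Finset.sum_congr rfl fun l _ => ?_
    rw [Algebra.smul_def, Algebra.smul_def, Algebra.smul_def]
    ring
  have hφ1inj : ∀ x f, φ1 x = 0 → φ2 f x = 0 → x = 0 := by
    intro x f h1 h2
    have h3 := h.indep x.2 h1
    rw [hφ2, h3] at h2
    simp only [Pi.zero_apply, zero_smul, Finset.sum_const_zero, add_zero] at h2
    rw [Algebra.smul_def, mul_one] at h2
    exact Prod.ext ((map_eq_zero _).1 h2) h3
  have hφ1v : ∀ (w : Point K) x, w.val (φ1 x) ≤ w.val (L.frame w : K) := by
    intro w x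
    have : φ1 x ∈ H0 L := by
      rw [hφ1]
      exact Submodule.sum_mem _ fun l _ => Submodule.smul_mem _ _ (h.mem l)
    exact this w
  have hφ2v : ∀ (w : Point K) x, w.val (φ2 (τ w) x) ≤ 1 := by
    intro w x
    rw [hφ2]
    refine Valuation.map_add_le _ ?_ (Valuation.map_sum_le _ fun l _ => ?_)
    · rw [Algebra.smul_def, mul_one]
      exact w.const_le _
    · rw [Algebra.smul_def, map_mul]
      exact mul_le_one' (w.const_le _) (hreg w l)
  -- residues
  have hres : ∀ (φ : ℂ × (Fin (genus K) → ℂ) →ₗ[ℂ] K) (hφ : ∀ x, v.val (φ x) ≤ 1),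
      ∃ ρ : ℂ × (Fin (genus K) → ℂ) →ₗ[ℂ] ℂ, ∀ x, ρ x = 0 → v.val (φ x) < 1 := by
    intro φ hφ
    refine ⟨{ toFun := fun x => resHom hK v ⟨φ x, hφ x⟩
              map_add' := fun x y => ?_
              map_smul' := fun z x => ?_ }, fun x hx => ?_⟩
    · rw [← map_add]
      congr 1
      apply Subtype.ext
      exact map_add φ x y
    · rw [RingHom.id_apply, smul_eq_mul]
      have h1 : (⟨φ (z • x), hφ _⟩ : v.val.integer) =
          ⟨algebraMap ℂ K z, v.const_le z⟩ * ⟨φ x, hφ x⟩ := by
        apply Subtype.ext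
        change φ (z • x) = algebraMap ℂ K z * φ x
        rw [map_smul, Algebra.smul_def]
      rw [h1, map_mul, resHom_const]
    · exact (resHom_eq_zero_iff hK v ⟨φ x, hφ x⟩).1 hx
  have hL0 : (L.frame v : K) ≠ 0 := (L.frame v).ne_zero
  obtain ⟨ρ1, hρ1⟩ := hres ((LinearMap.mulLeft ℂ (L.frame v : K)⁻¹) ∘ₗ φ1) (by
    intro x
    change v.val ((L.frame v : K)⁻¹ * φ1 x) ≤ 1
    rw [map_mul, map_inv₀, inv_mul_le_one₀ (frame_pos L v)]
    exact hφ1v v x)
  obtain ⟨ρ2, hρ2⟩ := hres (φ2 (τ v)) (hφ2v v)
  have hker : LinearMap.ker (ρ1.prod ρ2) ≠ ⊥ := by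
    apply LinearMap.ker_ne_bot_of_finrank_lt
    simp
    omega
  obtain ⟨u, hu, hu0⟩ := Submodule.exists_mem_ne_zero_of_ne_bot hker
  rw [LinearMap.ker_prod] at hu
  have hu1 : v.val (φ1 u) < v.val (L.frame v : K) := by
    have h1 := hρ1 u hu.1
    change v.val ((L.frame v : K)⁻¹ * φ1 u) < 1 at h1
    rwa [map_mul, map_inv₀, inv_mul_lt_one₀ (frame_pos L v)] at h1
  have hu2 : v.val (φ2 (τ v) u) < 1 := hρ2 u hu.2
  set y := φ1 u with hy
  have hy0 : y ≠ 0 := by
    intro h0
    have h1 := h.indep u.2 h0
    apply hu0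
    rw [hφ2, h1] at hu2
    simp only [Pi.zero_apply, zero_smul, Finset.sum_const_zero, add_zero] at hu2
    rw [Algebra.smul_def, mul_one] at hu2
    refine Prod.ext ?_ h1
    by_contra h2
    rw [v.const _ h2] at hu2
    exact lt_irrefl _ hu2
  obtain ⟨f, hf⟩ : ∃ f, φ2 f u = 0 := by
    refine ⟨φ2 0 u / y, ?_⟩
    rw [hφ12 _ 0, zero_sub, neg_mul, div_mul_cancel₀ _ hy0, add_neg_cancel]
  -- the line bundle `B`
  let opt : Option (Fin (genus K)) → K := fun o => o.elim 1 fun l => a l - f * c l
  choose om hom using fun w : Point K => Finite.exists_max fun o => w.val (opt o)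
  have hom1 : ∀ w : Point K, 1 ≤ w.val (opt (om w)) := by
    intro w
    have h1 := hom w none
    change w.val (1 : K) ≤ _ at h1
    rwa [map_one] at h1
  have homl : ∀ (w : Point K) l, w.val (a l - f * c l) ≤ w.val (opt (om w)) := fun w l =>
    hom w (some l)
  have hom0 : ∀ w : Point K, opt (om w) ≠ 0 := by
    intro w h0
    have := hom1 w
    rw [h0, map_zero] at this
    exact absurd this (by simp)
  let B : LineBundle K :=
    { frame := fun w => Units.mk0 (opt (om w)) (hom0 w)
      finite := by
        refine (Set.finite_iUnion fun l : Fin (genus K) =>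
          finite_not_reg hK (a l - f * c l)).subset fun w hw => ?_
        by_contra hcon'
        rw [Set.mem_iUnion] at hcon'
        push Not at hcon'
        apply hw
        change w.val (opt (om w)) = 1
        refine le_antisymm ?_ (hom1 w)
        rcases om w with _ | l
        · change w.val (1 : K) ≤ 1
          rw [map_one]
        · have := hcon' l
          rw [Set.mem_ofPred_eq] at this
          exact not_lt.1 this }
  have hBv : ∀ w : Point K, w.val (B.frame w : K) = w.val (opt (om w)) := fun w => rfl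
  -- bound for `B`
  have hB1 : ∀ w : Point K, w.val (B.frame w : K) = 1 ∨
      w.val (B.frame w : K) ≤ w.val (f - τ w) * w.val (L.frame w : K) := by
    intro w
    by_cases h1 : w.val (B.frame w : K) = 1
    · exact Or.inl h1
    · right
      have h2 : 1 < w.val (B.frame w : K) := lt_of_le_of_ne (hom1 w) (Ne.symm h1)
      rw [hBv] at h2 ⊢
      rcases ho : om w with _ | l
      · rw [ho] at h2
        change 1 < w.val (1 : K) at h2
        rw [map_one] at h2
        exact absurd h2 (lt_irrefl _)
      · rw [ho] at h2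
        change 1 < w.val (a l - f * c l) at h2
        change w.val (a l - f * c l) ≤ _
        have h3 : a l - f * c l = (a l - τ w * c l) - (f - τ w) * c l := by ring
        by_contra h4
        push Not at h4
        have h5 : w.val (a l - f * c l) < w.val (a l - f * c l) := by
          conv_lhs => rw [h3]
          refine Valuation.map_sub_lt _ ((hreg w l).trans_lt h2) ?_
          rw [map_mul]
          exact (mul_le_mul_right (h.mem l w) _).trans_lt h4
        exact lt_irrefl _ h5
  have hmemH : ∀ x, φ2 f x ∈ H0 B := by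
    intro x
    refine add_mem (Submodule.smul_mem _ _ ?_) (Submodule.sum_mem _ fun l _ =>
      Submodule.smul_mem _ _ ?_)
    · intro w
      change w.val (1 : K) ≤ _
      rw [map_one]
      exact hom1 w
    · exact fun w => homl w l
  have hkerH : ∀ x, φ2 f x = 0 → φ1 x ∈ H0 (lmul L (linv B)) := by
    intro x hx w
    rw [mem_lmul_linv]
    change w.val (φ1 x * (B.frame w : K)) ≤ w.val (L.frame w : K)
    rw [map_mul]
    rcases hB1 w with h1 | h1
    · rw [h1, mul_one]
      exact hφ1v w x
    · refine (mul_le_mul_right h1 _).trans ?_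
      rw [← mul_assoc]
      apply mul_le_of_le_one_left'
      have h2 := hφ2v w x
      rw [hφ12 _ f, hx, zero_add, map_mul] at h2
      rwa [mul_comm]
  have f1 := H0_finite hK hg B
  have f2 := H0_finite hK hg (lmul L (linv B))
  -- dimension count
  let Ev : ℂ × (Fin (genus K) → ℂ) →ₗ[ℂ] H0 B := (φ2 f).codRestrict (H0 B) hmemH
  have hEv : ∀ x, Ev x = 0 ↔ φ2 f x = 0 := by
    intro x
    rw [Subtype.ext_iff]
    rfl
  have hd1 := LinearMap.finrank_range_add_finrank_ker Ev
  have hd2 : Module.finrank ℂ (ℂ × (Fin (genus K) → ℂ)) = genus K + 1 := by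
    simp
    omega
  have hd3 := Submodule.finrank_le (LinearMap.range Ev)
  let F : LinearMap.ker Ev →ₗ[ℂ] H0 (lmul L (linv B)) :=
    (φ1 ∘ₗ (LinearMap.ker Ev).subtype).codRestrict _ (fun x => hkerH x.1 ((hEv x.1).1 x.2))
  have hF : Function.Injective F := by
    rw [← LinearMap.ker_eq_bot, LinearMap.ker_eq_bot']
    intro x hx
    apply Subtype.ext
    exact hφ1inj x.1 f (congrArg Subtype.val hx) ((hEv x.1).1 x.2)
  have hd4 := LinearMap.finrank_le_finrank_of_injective hF
  rw [hd2] at hd1
  -- `h⁰(B) ≥ 2`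
  have hB2 : 2 ≤ Module.finrank ℂ (H0 B) := by
    by_contra hlt
    have h1 : Module.finrank ℂ (H0 B) ≤ 1 := by omega
    obtain ⟨z, hz⟩ := finrank_le_one_iff.1 h1
    obtain ⟨l, hl⟩ := hnc f
    have m1 : (1 : K) ∈ H0 B := fun w => by
      change w.val (1 : K) ≤ _
      rw [map_one]
      exact hom1 w
    have m2 : a l - f * c l ∈ H0 B := fun w => homl w l
    obtain ⟨p, hp⟩ := hz ⟨1, m1⟩
    obtain ⟨p', hp'⟩ := hz ⟨_, m2⟩
    have hp1 : p • (z : K) = 1 := congrArg Subtype.val hp
    have hp2 : p' • (z : K) = a l - f * c l := congrArg Subtype.val hp'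
    have hp0 : p ≠ 0 := by
      rintro rfl
      rw [zero_smul] at hp1
      exact zero_ne_one hp1
    apply hl (p' / p)
    have h3 : (p' / p) • (1 : K) = a l - f * c l := by
      rw [← hp1, smul_smul, div_mul_cancel₀ _ hp0, hp2]
    rw [← h3, Algebra.smul_def, mul_one]
  -- the line bundle `A`
  set κ := can hK hg with hκ
  set A := lmul L (linv B) with hA
  have hrrB := (rrL hK hg B).2
  have hrrA := (rrL hK hg A).2
  rw [← hκ] at hrrB hrrA
  have hAd : A.degree = L.degree - B.degree := by rw [hA, lmul_degree, linv_degree]; ring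
  have hκd : κ.degree = 2 * genus K - 2 := by rw [hκ, can_degree]
  have hκB : (lmul κ (linv B)).degree = 2 * genus K - 2 - B.degree := by
    rw [lmul_degree, linv_degree, hκd]; ring
  have hκA : (lmul κ (linv A)).degree = 2 * genus K - 2 - A.degree := by
    rw [lmul_degree, linv_degree, hκd]; ring
  have hyA : y ∈ H0 A := hkerH u hf
  have hpos : 0 < A.degree := by
    rw [← lprin_degree hK (Units.mk0 y hy0)]
    refine ldegree_lt hK (v := v) (fun w => hyA w) ?_
    change v.val y < v.val ((L.frame v * (B.frame v)⁻¹ : Kˣ) : K)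
    rw [Units.val_mul, map_mul, Units.val_inv_eq_inv_val, map_inv₀, ← div_eq_mul_inv,
      lt_div_iff₀ (frame_pos B v)]
    rcases hB1 v with h1 | h1
    · rw [h1, mul_one]
      exact hu1
    · refine (mul_le_mul_right h1 _).trans_lt ?_
      rw [← mul_assoc]
      refine mul_lt_of_lt_one_left (frame_pos L v) ?_
      rw [hφ12 _ f, hf, zero_add, map_mul] at hu2
      rwa [mul_comm]
  have hclB : 2 ≤ Module.finrank ℂ (H0 (lmul κ (linv B))) →
      Module.finrank ℂ (H0 B) + Module.finrank ℂ (H0 (lmul κ (linv B))) ≤ genus K := fun h2 =>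
    cliff hK hg hs B.degree.toNat B (by omega) hB2 h2
  have hclA : 2 ≤ Module.finrank ℂ (H0 A) → 2 ≤ Module.finrank ℂ (H0 (lmul κ (linv A))) →
      Module.finrank ℂ (H0 A) + Module.finrank ℂ (H0 (lmul κ (linv A))) ≤ genus K := fun h1 h2 =>
    cliff hK hg hs A.degree.toNat A (by omega) h1 h2
  have hgeA : genus K - 1 ≤ Module.finrank ℂ (H0 (lmul κ (linv A))) →
      2 * ((genus K - 2 : ℕ) : ℤ) + 1 ≤ (lmul κ (linv A)).degree := fun h1 =>
    degree_ge hK hg hs (A := lmul κ (linv A)) (q := genus K - 2) (by omega) (by omega) (by omega)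
  have hgeB : genus K - 1 ≤ Module.finrank ℂ (H0 (lmul κ (linv B))) →
      2 * ((genus K - 2 : ℕ) : ℤ) + 1 ≤ (lmul κ (linv B)).degree := fun h1 =>
    degree_ge hK hg hs (A := lmul κ (linv B)) (q := genus K - 2) (by omega) (by omega) (by omega)
  have hsA : A.degree ≤ 2 → Module.finrank ℂ (H0 A) ≤ 1 := hs A
  have hsB : B.degree ≤ 2 → Module.finrank ℂ (H0 B) ≤ 1 := hs B
  have hcast : ((genus K - 2 : ℕ) : ℤ) = (genus K : ℤ) - 2 := by omega
  rw [hcast] at hgeA hgeB
  rw [hκA] at hgeA
  rw [hκB] at hgeB
  by_cases hA2 : 2 ≤ Module.finrank ℂ (H0 A)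
  · by_cases h3 : 2 ≤ Module.finrank ℂ (H0 (lmul κ (linv B)))
    · by_cases h4 : 2 ≤ Module.finrank ℂ (H0 (lmul κ (linv A)))
      · have e1 := hclB h3
        have e2 := hclA hA2 h4
        omega
      · have e1 := hgeB (by omega)
        omega
    · have e1 := hgeA (by omega)
      omega
  · -- `B` is the canonical bundle and `L ⊗ Ω⁻¹` is effective
    have e3 : Module.finrank ℂ (H0 (lmul κ (linv B))) = 1 := by
      by_contra hne
      have := hclB (by omega)
      omega
    have e4 : B.degree = 2 * genus K - 2 := by omega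
    obtain ⟨z, hz0, -⟩ := finrank_eq_one_iff'.1 e3
    have hz0' : (z : K) ≠ 0 := fun h0 => hz0 (Subtype.ext h0)
    have hzd : (lprin hK (Units.mk0 (z : K) hz0')).degree = (lmul κ (linv B)).degree := by
      rw [lprin_degree, hκB]; omega
    have hzv : ∀ w : Point K, w.val (z : K) = w.val ((lmul κ (linv B)).frame w : K) := by
      intro w
      by_contra hne
      have := ldegree_lt hK (L := lprin hK (Units.mk0 (z : K) hz0')) (M := lmul κ (linv B)) (v := w)
        (fun w' => z.2 w') (lt_of_le_of_ne (z.2 w) hne)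
      omega
    have hyT : y / (z : K) ∈ H0 (lmul L (linv κ)) := by
      intro w
      rw [mem_lmul_linv]
      change w.val (y / (z : K) * (κ.frame w : K)) ≤ w.val (L.frame w : K)
      have h5 := (mem_lmul_linv L B w y).1 (hyA w)
      change w.val (y * (B.frame w : K)) ≤ w.val (L.frame w : K) at h5
      have h6 : w.val (z : K) = w.val (κ.frame w : K) * (w.val (B.frame w : K))⁻¹ := by
        rw [hzv w]
        change w.val ((κ.frame w * (B.frame w)⁻¹ : Kˣ) : K) = _
        rw [Units.val_mul, map_mul, Units.val_inv_eq_inv_val, map_inv₀]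
      have hk0 : w.val (κ.frame w : K) ≠ 0 := (frame_pos κ w).ne'
      have hb0 : w.val (B.frame w : K) ≠ 0 := (frame_pos B w).ne'
      rw [map_mul, map_div₀, h6]
      rw [map_mul] at h5
      have h7 : w.val y / (w.val (κ.frame w : K) * (w.val (B.frame w : K))⁻¹) * w.val (κ.frame w : K) =
          w.val y * w.val (B.frame w : K) := by
        field_simp
      rw [h7]
      exact h5
    have := not_effective hK hg hd h hyT
    rw [div_eq_zero_iff] at this
    rcases this with h8 | h8
    · exact hy0 h8
    · exact hz0' h8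

end Pool.Agent.Y803.BG
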